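import Mathlib

/-!
# Counting integers with prescribed residues modulo several primes
-/

namespace Pool.Agent.Lib.MP_d57abb_nt.ER

open Finset

theorem Chin_exists (B : ℕ → Finset ℕ) (S : Finset ℕ) (hS : ∀ q ∈ S, q.Prime)
    (hB : ∀ q ∈ S, ∀ b ∈ B q, b < q) :
    ∃ C : Finset ℕ, (∀ c ∈ C, c < ∏ q ∈ S, q) ∧ C.card = ∏ q ∈ S, (B q).card ∧
      ∀ t : ℕ, (∀ q ∈ S, t % q ∈ B q) ↔ t % (∏ q ∈ S, q) ∈ C := by
  classical
  induction S using Finset.induction_on with
  | empty =>
    refine ⟨{0}, ?_, ?_, ?_⟩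
    · intro c hc
      rw [mem_singleton] at hc
      simp [hc]
    · simp
    · intro t
      simp [Nat.mod_one]
  | insert q S hq ih =>
    obtain ⟨C, hC1, hC2, hC3⟩ := ih (fun r hr => hS r (mem_insert_of_mem hr))
      (fun r hr => hB r (mem_insert_of_mem hr))
    have hqp : q.Prime := hS q (mem_insert_self q S)
    set Q : ℕ := ∏ r ∈ S, r with hQ
    have hQ0 : Q ≠ 0 := (Finset.prod_pos fun r hr => (hS r (mem_insert_of_mem hr)).pos).ne'
    have hco : Nat.Coprime Q q := by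
      rw [hQ]
      refine Nat.Coprime.prod_left fun r hr => ?_
      refine (Nat.coprime_primes (hS r (mem_insert_of_mem hr)) hqp).2 ?_
      rintro rfl
      exact hq hr
    have hprod : ∏ r ∈ insert q S, r = Q * q := by
      rw [Finset.prod_insert hq, mul_comm]
    have hBq : ∀ b ∈ B q, b < q := hB q (mem_insert_self q S)
    have key : ∀ c b : ℕ, c < Q → b < q → ((Nat.chineseRemainder hco c b : ℕ) % Q = c ∧
        (Nat.chineseRemainder hco c b : ℕ) % q = b) := by
      intro c b hc hb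
      obtain ⟨h1, h2⟩ := (Nat.chineseRemainder hco c b).2
      refine ⟨?_, ?_⟩
      · rw [h1, Nat.mod_eq_of_lt hc]
      · rw [h2, Nat.mod_eq_of_lt hb]
    refine ⟨(C ×ˢ B q).image (fun x => (Nat.chineseRemainder hco x.1 x.2 : ℕ)), ?_, ?_, ?_⟩
    · intro c hc
      rw [mem_image] at hc
      obtain ⟨x, hx, rfl⟩ := hc
      rw [hprod]
      exact Nat.chineseRemainder_lt_mul hco x.1 x.2 hQ0 hqp.ne_zero
    · rw [card_image_of_injOn, card_product, hC2, Finset.prod_insert hq, mul_comm]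
      intro x hx y hy hxy
      rw [mem_coe, mem_product] at hx hy
      simp only at hxy
      have h1 := key x.1 x.2 (hC1 _ hx.1) (hBq _ hx.2)
      have h2 := key y.1 y.2 (hC1 _ hy.1) (hBq _ hy.2)
      rw [hxy] at h1
      exact Prod.ext (h1.1.symm.trans h2.1) (h1.2.symm.trans h2.2)
    · intro t
      rw [hprod]
      constructor
      · intro h
        have h1 : t % Q ∈ C := (hC3 t).1 (fun r hr => h r (mem_insert_of_mem hr))
        have h2 : t % q ∈ B q := h q (mem_insert_self q S)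
        rw [mem_image]
        refine ⟨(t % Q, t % q), mem_product.2 ⟨h1, h2⟩, ?_⟩
        obtain ⟨h3, h4⟩ := (Nat.chineseRemainder hco (t % Q) (t % q)).2
        have h5 : (Nat.chineseRemainder hco (t % Q) (t % q) : ℕ) ≡ t [MOD Q * q] := by
          rw [← Nat.modEq_and_modEq_iff_modEq_mul hco]
          exact ⟨h3.trans (Nat.mod_modEq t Q), h4.trans (Nat.mod_modEq t q)⟩
        have h6 := Nat.chineseRemainder_lt_mul hco (t % Q) (t % q) hQ0 hqp.ne_zero
        have h7 : (Nat.chineseRemainder hco (t % Q) (t % q) : ℕ) % (Q * q) = t % (Q * q) := h5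
        rw [Nat.mod_eq_of_lt h6] at h7
        exact h7
      · intro h
        rw [mem_image] at h
        obtain ⟨x, hx, hxt⟩ := h
        rw [mem_product] at hx
        have h1 := key x.1 x.2 (hC1 _ hx.1) (hBq _ hx.2)
        rw [hxt, Nat.mod_mul_right_mod, Nat.mod_mul_left_mod] at h1
        intro r hr
        rcases mem_insert.1 hr with h2 | h2
        · rw [h2, h1.2]
          exact hx.2
        · exact (hC3 t).2 (by rw [h1.1]; exact hx.1) r h2

theorem Chin_one (Q T c : ℕ) (hQ : 0 < Q) (hc : c < Q) :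
    |(((range T).filter (fun t => t % Q = c)).card : ℝ) - (T : ℝ) / Q| ≤ 1 := by
  have h1 : ((range T).filter (fun t => t % Q = c)).card = T.count (· ≡ c [MOD Q]) := by
    rw [Nat.count_eq_card_filter_range]
    congr 1
    refine Finset.filter_congr fun t _ => ?_
    unfold Nat.ModEq
    rw [Nat.mod_eq_of_lt hc]
  rw [h1, Nat.count_modEq_card T hQ c]
  have h2 : (Q : ℝ) * ((T / Q : ℕ) : ℝ) + ((T % Q : ℕ) : ℝ) = T := by
    exact_mod_cast Nat.div_add_mod T Q
  have hQ' : (0 : ℝ) < Q := by exact_mod_cast hQ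
  have h3 : ((T % Q : ℕ) : ℝ) < Q := by exact_mod_cast Nat.mod_lt T hQ
  have h4 : (0 : ℝ) ≤ ((T % Q : ℕ) : ℝ) := Nat.cast_nonneg _
  have h5 : (T : ℝ) / Q = ((T / Q : ℕ) : ℝ) + ((T % Q : ℕ) : ℝ) / Q := by
    rw [← h2]
    field_simp
  have h6 : ((T % Q : ℕ) : ℝ) / Q ≤ 1 := by rw [div_le_one hQ']; exact h3.le
  have h7 : 0 ≤ ((T % Q : ℕ) : ℝ) / Q := by positivity
  rw [h5]
  push_cast
  split_ifs with h
  · rw [abs_le]
    push_cast
    constructor <;> linarith
  · rw [abs_le]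
    push_cast
    constructor <;> linarith

theorem crt_count (B : ℕ → Finset ℕ) (S : Finset ℕ) (hS : ∀ q ∈ S, q.Prime)
    (hB : ∀ q ∈ S, ∀ b ∈ B q, b < q) (T : ℕ) :
    |(((range T).filter (fun t => ∀ q ∈ S, t % q ∈ B q)).card : ℝ) - T * ∏ q ∈ S, ((B q).card : ℝ) / q| ≤
      ∏ q ∈ S, (q : ℝ) := by
  classical
  obtain ⟨C, hC1, hC2, hC3⟩ := Chin_exists B S hS hB
  set Q : ℕ := ∏ q ∈ S, q with hQ
  have hQ0 : 0 < Q := Finset.prod_pos fun q hq => (hS q hq).pos
  have hQ' : (0 : ℝ) < Q := by exact_mod_cast hQ0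
  have h1 : ((range T).filter (fun t => ∀ q ∈ S, t % q ∈ B q)).card =
      ∑ c ∈ C, ((range T).filter (fun t => t % Q = c)).card := by
    rw [← Finset.card_biUnion]
    · congr 1
      ext t
      simp only [mem_filter, mem_biUnion]
      constructor
      · rintro ⟨h2, h3⟩
        exact ⟨t % Q, (hC3 t).1 h3, h2, rfl⟩
      · rintro ⟨c, h2, h3, h4⟩
        refine ⟨h3, (hC3 t).2 ?_⟩
        rw [h4]
        exact h2
    · intro c _ c' _ hcc
      rw [Function.onFun, Finset.disjoint_left]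
      intro t ht ht'
      rw [mem_filter] at ht ht'
      exact hcc (ht.2.symm.trans ht'.2)
  have h2 : (T : ℝ) * ∏ q ∈ S, ((B q).card : ℝ) / q = ∑ c ∈ C, (T : ℝ) / Q := by
    rw [Finset.sum_const, nsmul_eq_mul, Finset.prod_div_distrib, hC2, hQ]
    push_cast
    ring
  rw [h1, h2]
  push_cast
  rw [← Finset.sum_sub_distrib]
  refine (Finset.abs_sum_le_sum_abs _ _).trans ?_
  refine (Finset.sum_le_sum fun c hc => Chin_one Q T c hQ0 (hC1 c hc)).trans ?_
  rw [Finset.sum_const, nsmul_eq_mul, mul_one]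
  have h3 : C.card ≤ Q := by
    have h4 : C ⊆ range Q := fun c hc => mem_range.2 (hC1 c hc)
    simpa using card_le_card h4
  have h4 : ((C.card : ℕ) : ℝ) ≤ (Q : ℝ) := by exact_mod_cast h3
  rw [hQ] at h4
  push_cast at h4
  exact h4

end Pool.Agent.Lib.MP_d57abb_nt.ER
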