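import Pool.Agent.Lib.MP_d57abb_nt.ER.Res

/-!
# Rough values of the form `x ^ 2 + 3 * x * y + y ^ 2` for fixed prime `y`
-/

namespace Pool.Agent.Lib.MP_d57abb_nt.ER

open Finset Pool.Agent.Lib.MP_42948a_nt.OA

/-- bad residues -/
def BC (y q : ℕ) : Finset ℕ := (range q).filter (fun r => q ∣ r ^ 2 + 3 * r * y + y ^ 2)

theorem roots_two_y {p : ℕ} [Fact p.Prime] (y : ZMod p) (s : Finset (ZMod p))
    (hs : ∀ u ∈ s, u ^ 2 + 3 * u * y + y ^ 2 = 0) : s.card ≤ 2 := by
  classical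
  rcases s.eq_empty_or_nonempty with h | ⟨a, ha⟩
  · rw [h]
    simp
  · have h1 : s ⊆ {a, -3 * y - a} := by
      intro u hu
      have h2 := hs u hu
      have h3 := hs a ha
      have h4 : (u - a) * (u - (-3 * y - a)) = 0 := by
        linear_combination h2 - h3
      rw [mem_insert, mem_singleton]
      rcases mul_eq_zero.1 h4 with h5 | h5
      · left
        exact sub_eq_zero.1 h5
      · right
        exact sub_eq_zero.1 h5
    exact (card_le_card h1).trans (Finset.card_le_two)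

theorem BC_card_two {y q : ℕ} (hq : q.Prime) : (BC y q).card ≤ 2 := by
  classical
  have : Fact q.Prime := ⟨hq⟩
  have h1 : (BC y q).card = ((BC y q).image (fun r : ℕ => (r : ZMod q))).card := by
    rw [card_image_of_injOn]
    intro r hr r' hr' hrr
    unfold BC at hr hr'
    rw [mem_coe, mem_filter, mem_range] at hr hr'
    simp only at hrr
    rw [ZMod.natCast_eq_natCast_iff] at hrr
    exact Nat.ModEq.eq_of_lt_of_lt hrr hr.1 hr'.1
  rw [h1]
  refine roots_two_y (y : ZMod q) _ ?_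
  intro u hu
  rw [mem_image] at hu
  obtain ⟨r, hr, rfl⟩ := hu
  unfold BC at hr
  rw [mem_filter] at hr
  have h2 := (ZMod.natCast_eq_zero_iff _ _).2 hr.2
  push_cast at h2 ⊢
  exact h2

theorem no_root_two_y {u y : ℕ} (hy : ¬ 2 ∣ y) : ¬ 2 ∣ u ^ 2 + 3 * u * y + y ^ 2 := by
  intro h
  have h1 := (ZMod.natCast_eq_zero_iff _ _).2 h
  have h2 : (y : ZMod 2) ≠ 0 := by
    rw [Ne, ZMod.natCast_eq_zero_iff]
    exact hy
  push_cast at h1
  generalize (u : ZMod 2) = v at h1
  generalize (y : ZMod 2) = w at h1 h2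
  revert h1 h2
  revert v w
  decide

theorem BC_card {y q : ℕ} (hq : q.Prime) (hy : ¬ q ∣ y) :
    (BC y q).card ≤ 4 ∧ 4 * (BC y q).card ≤ 3 * q := by
  have h1 := BC_card_two (y := y) hq
  refine ⟨by omega, ?_⟩
  rcases Nat.lt_or_ge q 3 with h | h
  · have hq2 : q = 2 := by
      have := hq.two_le
      omega
    subst hq2
    have h2 : (BC y 2).card = 0 := by
      rw [card_eq_zero]
      unfold BC
      rw [filter_eq_empty_iff]
      intro r _
      exact no_root_two_y hy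
    omega
  · omega

theorem mem_BC {y q t : ℕ} (hq : q.Prime) : t % q ∈ BC y q ↔ q ∣ t ^ 2 + 3 * t * y + y ^ 2 := by
  unfold BC
  rw [mem_filter, mem_range]
  have h0 : t % q ≡ t [MOD q] := Nat.mod_modEq t q
  have h3 : (t % q) ^ 2 + 3 * (t % q) * y + y ^ 2 ≡ t ^ 2 + 3 * t * y + y ^ 2 [MOD q] :=
    ((h0.pow 2).add ((h0.mul_left 3).mul_right y)).add_right (y ^ 2)
  constructor
  · rintro ⟨_, h⟩
    exact (h3.dvd_iff dvd_rfl).1 h
  · intro h
    exact ⟨Nat.mod_lt _ hq.pos, (h3.dvd_iff dvd_rfl).2 h⟩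

/-- the good `x` for given `y` -/
def Vy (z y : ℕ) : Finset ℕ :=
  (Ico 1 y).filter (fun x => ∀ q ∈ PP z, ¬ q ∣ x ^ 2 + 3 * x * y + y ^ 2)

theorem col : ∃ K : ℕ, ∀ z : ℕ, 5 ≤ z → ∀ y : ℕ, y.Prime → z < y →
    (y : ℝ) / (2 * (z : ℝ) ^ 4) - (z : ℝ) ^ (2 * K) - 1 ≤ ((Vy z y).card : ℝ) := by
  classical
  obtain ⟨K, hK⟩ := sieve_res
  refine ⟨K, fun z hz y hy hzy => ?_⟩
  have h := hK z hz (BC y) y ?_
  · have h1 : (range y).filter (fun t => ∀ q ∈ PP z, ¬ t % q ∈ BC y q) ⊆ insert 0 (Vy z y) := by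
      intro t ht
      rw [mem_filter, mem_range] at ht
      rw [mem_insert]
      rcases Nat.eq_zero_or_pos t with h2 | h2
      · exact Or.inl h2
      · right
        unfold Vy
        rw [mem_filter, mem_Ico]
        refine ⟨⟨h2, ht.1⟩, fun q hq hqd => ?_⟩
        exact ht.2 q hq ((mem_BC (mem_PP.1 hq).1).2 hqd)
    have h2 := (card_le_card h1).trans (card_insert_le _ _)
    have h3 : (((range y).filter (fun t => ∀ q ∈ PP z, ¬ t % q ∈ BC y q)).card : ℝ) ≤
        ((Vy z y).card : ℝ) + 1 := by exact_mod_cast h2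
    linarith
  · intro q hq
    have hqp := (mem_PP.1 hq).1
    have hqy : ¬ q ∣ y := by
      intro h2
      have h3 := (Nat.prime_dvd_prime_iff_eq hqp hy).1 h2
      have h4 := (mem_PP.1 hq).2
      omega
    refine ⟨?_, BC_card hqp hqy⟩
    intro b hb
    unfold BC at hb
    rw [mem_filter, mem_range] at hb
    exact hb.1

end Pool.Agent.Lib.MP_d57abb_nt.ER
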