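import Pool.Agent.Lib.MP_42948a_nt.OA.SA
import Pool.Agent.Lib.MP_42948a_nt.OA.SC
import Pool.Agent.Lib.MP_42948a_nt.OA.SE
import Pool.Agent.Lib.MP_42948a_nt.OA.SF
import Pool.Agent.Lib.MP_42948a_nt.OA.SG

/-!
# The Brun-Hooley functional for sieves of dimension two (densities at most `4 / p`)

As `MP_42948a_nt/OA/SH.lean`, with `4` in place of `2`.
-/

namespace Pool.Agent.Lib.MP_d57abb_nt.ER

open Finset Pool.Agent.Lib.MP_42948a_nt.OA

theorem FF_ge4 : ∃ b0 : ℕ, ∀ (z : ℕ) (g : ℕ → ℝ),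
    (∀ p ∈ PP z, 0 ≤ g p ∧ g p ≤ 3 / 4 ∧ g p ≤ 4 / p) →
    1 / 2 * ∏ p ∈ PP z, (1 - g p) ≤ FF z b0 g := by
  obtain ⟨L0, hL0, hrec⟩ := block_recip
  obtain ⟨b0, hb0⟩ := exp_tail (4 * L0) (Real.exp (-(2 * (4 * L0))) / 2) (by linarith)
    (by have := Real.exp_pos (-(2 * (4 * L0))); linarith)
  set L : ℝ := 4 * L0 with hL
  have hLpos : 0 < L := by rw [hL]; linarith
  refine ⟨b0, fun z g hg => ?_⟩
  have hsub : ∀ l, ∀ p ∈ Pj z l, p ∈ PP z := fun l p hp => (mem_filter.mp hp).1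
  have hg0 : ∀ l, ∀ p ∈ Pj z l, 0 ≤ g p := fun l p hp => (hg p (hsub l p hp)).1
  have hg34 : ∀ l, ∀ p ∈ Pj z l, g p ≤ 3 / 4 := fun l p hp => (hg p (hsub l p hp)).2.1
  have hg1 : ∀ l, ∀ p ∈ Pj z l, g p ≤ 1 := fun l p hp => (hg34 l p hp).trans (by norm_num)
  have hS0 : ∀ l, 0 ≤ ∑ p ∈ Pj z l, g p := fun l => sum_nonneg (hg0 l)
  have hS : ∀ l, ∑ p ∈ Pj z l, g p ≤ L := by
    intro l
    calc ∑ p ∈ Pj z l, g p ≤ ∑ p ∈ Pj z l, 4 * ((1 : ℝ) / p) := by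
          refine sum_le_sum fun p hp => ?_
          refine (hg p (hsub l p hp)).2.2.trans (le_of_eq ?_)
          ring
      _ = 4 * ∑ p ∈ Pj z l, (1 : ℝ) / p := by rw [mul_sum]
      _ ≤ L := by
          rw [hL]
          exact mul_le_mul_of_nonneg_left (hrec z l) (by norm_num)
  have hV : ∀ l, Real.exp (-(2 * L)) ≤ ∏ p ∈ Pj z l, (1 - g p) := by
    intro l
    refine le_trans ?_ (exp_le_prod (Pj z l) g (hg0 l) (hg34 l))
    apply Real.exp_le_exp.mpr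
    linarith [hS l]
  have hU : ∀ l, ∏ p ∈ Pj z l, (1 - g p) ≤ bon (Pj z l) g (2 * (b0 + l)) :=
    fun l => bon_ge (Pj z l) g (hg0 l) (hg1 l) (b0 + l)
  have hU0 : ∀ l, 0 < bon (Pj z l) g (2 * (b0 + l)) :=
    fun l => lt_of_lt_of_le (Real.exp_pos _) ((hV l).trans (hU l))
  have hE : ∀ l, esy (Pj z l) g (2 * (b0 + l) + 1) ≤
      L ^ (2 * (b0 + l) + 1) / ((2 * (b0 + l) + 1).factorial : ℝ) := by
    intro l
    refine (esy_le (Pj z l) g (hg0 l) _).trans ?_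
    have h1 : (∑ p ∈ Pj z l, g p) ^ (2 * (b0 + l) + 1) ≤ L ^ (2 * (b0 + l) + 1) :=
      pow_le_pow_left₀ (hS0 l) (hS l) _
    have h2 : (0 : ℝ) < ((2 * (b0 + l) + 1).factorial : ℝ) := by exact_mod_cast Nat.factorial_pos _
    exact div_le_div_of_nonneg_right h1 h2.le
  set PU : ℝ := ∏ j ∈ range z, bon (Pj z j) g (2 * (b0 + j)) with hPU
  have hPU0 : 0 ≤ PU := prod_nonneg fun j _ => (hU0 j).le
  have hterm : ∀ l ∈ range z, esy (Pj z l) g (2 * (b0 + l) + 1) *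
      ∏ j ∈ (range z).erase l, bon (Pj z j) g (2 * (b0 + j)) ≤
      L ^ (2 * (b0 + l) + 1) / ((2 * (b0 + l) + 1).factorial : ℝ) * (Real.exp (2 * L) * PU) := by
    intro l hl
    have hX0 : 0 ≤ ∏ j ∈ (range z).erase l, bon (Pj z j) g (2 * (b0 + j)) :=
      prod_nonneg fun j _ => (hU0 j).le
    have hX : ∏ j ∈ (range z).erase l, bon (Pj z j) g (2 * (b0 + j)) ≤ Real.exp (2 * L) * PU := by
      rw [hPU, ← mul_prod_erase (range z) (fun j => bon (Pj z j) g (2 * (b0 + j))) hl, ← mul_assoc]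
      have h1 : 1 ≤ Real.exp (2 * L) * bon (Pj z l) g (2 * (b0 + l)) := by
        calc (1 : ℝ) = Real.exp (2 * L) * Real.exp (-(2 * L)) := by
              rw [← Real.exp_add, add_neg_cancel, Real.exp_zero]
          _ ≤ Real.exp (2 * L) * bon (Pj z l) g (2 * (b0 + l)) :=
              mul_le_mul_of_nonneg_left ((hV l).trans (hU l)) (Real.exp_pos _).le
      exact le_mul_of_one_le_left hX0 h1
    have h2 : (0 : ℝ) ≤ L ^ (2 * (b0 + l) + 1) / ((2 * (b0 + l) + 1).factorial : ℝ) := by positivity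
    exact (mul_le_mul_of_nonneg_right (hE l) hX0).trans (mul_le_mul_of_nonneg_left hX h2)
  have hsum : ∑ l ∈ range z, esy (Pj z l) g (2 * (b0 + l) + 1) *
      ∏ j ∈ (range z).erase l, bon (Pj z j) g (2 * (b0 + j)) ≤ PU / 2 := by
    refine (sum_le_sum hterm).trans ?_
    rw [← sum_mul]
    have h1 : (0 : ℝ) ≤ Real.exp (2 * L) * PU := mul_nonneg (Real.exp_pos _).le hPU0
    refine (mul_le_mul_of_nonneg_right (hb0 z) h1).trans (le_of_eq ?_)
    have h2 : Real.exp (-(2 * L)) * Real.exp (2 * L) = 1 := by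
      rw [← Real.exp_add, neg_add_cancel, Real.exp_zero]
    linear_combination (PU / 2) * h2
  have hPV : ∏ p ∈ PP z, (1 - g p) ≤ PU := by
    rw [prod_PP, hPU]
    exact prod_le_prod (fun j _ => (Real.exp_pos _).le.trans (hV j)) fun j _ => hU j
  unfold FF
  rw [← hPU]
  linarith

end Pool.Agent.Lib.MP_d57abb_nt.ER
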