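import Pool.Agent.Lib.MP_d57abb_nt.ER.Res

/-!
# Two consecutive rough values in a progression

For `d` without prime factors `≤ z` and every `ν` there is `t < z ^ (2 * K + 5)` such that, with `a = d * t + ν`, the numbers
`f a` and `f (a + d)` (`f u = u ^ 2 + 3 * u + 1`) have no prime factor `≤ z`.
-/

namespace Pool.Agent.Lib.MP_d57abb_nt.ER

open Finset Pool.Agent.Lib.MP_42948a_nt.OA

/-- bad residues -/
def BF (d ν q : ℕ) : Finset ℕ :=
  (range q).filter (fun r => q ∣ ((d * r + ν) ^ 2 + 3 * (d * r + ν) + 1) *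
    ((d * r + (ν + d)) ^ 2 + 3 * (d * r + (ν + d)) + 1))

theorem BF_sub {d ν q : ℕ} (hq : q.Prime) : BF d ν q ⊆
    ((range q).filter (fun r => q ∣ (d * r + ν) ^ 2 + 3 * (d * r + ν) + 1)) ∪
    ((range q).filter (fun r => q ∣ (d * r + (ν + d)) ^ 2 + 3 * (d * r + (ν + d)) + 1)) := by
  intro r hr
  unfold BF at hr
  rw [mem_filter] at hr
  rw [mem_union, mem_filter, mem_filter]
  rcases (hq.dvd_mul).1 hr.2 with h | h
  · exact Or.inl ⟨hr.1, h⟩
  · exact Or.inr ⟨hr.1, h⟩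

theorem roots_lin_five (c e : ℕ) (hc : ¬ 5 ∣ c) :
    ((range 5).filter (fun r => 5 ∣ (c * r + e) ^ 2 + 3 * (c * r + e) + 1)).card ≤ 1 := by
  rw [Finset.card_le_one]
  intro a ha b hb
  rw [mem_filter, mem_range] at ha hb
  have h1 := root_five ha.2
  have h2 := root_five hb.2
  have h3 : c * a + e ≡ c * b + e [MOD 5] := by
    unfold Nat.ModEq
    rw [h1, h2]
  have h4 : c * a ≡ c * b [MOD 5] := Nat.ModEq.add_right_cancel' e h3
  have h5 : Nat.Coprime 5 c := (Nat.Prime.coprime_iff_not_dvd (by norm_num)).2 hc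
  have h6 : a ≡ b [MOD 5] := Nat.ModEq.cancel_left_of_coprime h5 h4
  exact Nat.ModEq.eq_of_lt_of_lt h6 ha.1 hb.1

theorem BF_card {d ν q : ℕ} (hq : q.Prime) (hd : ¬ q ∣ d) :
    (BF d ν q).card ≤ 4 ∧ 4 * (BF d ν q).card ≤ 3 * q := by
  have h0 := (card_le_card (BF_sub (d := d) (ν := ν) hq)).trans (card_union_le _ _)
  have h1 := roots_lin hq d ν hd
  have h2 := roots_lin hq d (ν + d) hd
  have h3 : (BF d ν q).card ≤ 4 := by omega
  refine ⟨h3, ?_⟩
  have hempty : (∀ u : ℕ, ¬ q ∣ u ^ 2 + 3 * u + 1) → (BF d ν q).card = 0 := by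
    intro hu
    rw [card_eq_zero]
    unfold BF
    rw [filter_eq_empty_iff]
    intro r _ h
    rcases (hq.dvd_mul).1 h with h | h
    · exact hu _ h
    · exact hu _ h
  rcases Nat.lt_or_ge q 6 with h | h
  · have hq2 := hq.two_le
    interval_cases q
    · rw [hempty no_root_two]
      norm_num
    · rw [hempty no_root_three]
      norm_num
    · exact absurd hq (by norm_num)
    · have h4 := roots_lin_five d ν hd
      have h5 := roots_lin_five d (ν + d) hd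
      omega
  · omega

theorem mem_BF {d ν q t : ℕ} (hq : q.Prime) : t % q ∈ BF d ν q ↔
    q ∣ ((d * t + ν) ^ 2 + 3 * (d * t + ν) + 1) * ((d * t + (ν + d)) ^ 2 + 3 * (d * t + (ν + d)) + 1) := by
  unfold BF
  rw [mem_filter, mem_range]
  have h1 : ∀ e : ℕ, (d * (t % q) + e) ^ 2 + 3 * (d * (t % q) + e) + 1 ≡
      (d * t + e) ^ 2 + 3 * (d * t + e) + 1 [MOD q] := by
    intro e
    have h2 : d * (t % q) + e ≡ d * t + e [MOD q] := ((Nat.mod_modEq t q).mul_left d).add_right e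
    exact ((h2.pow 2).add (h2.mul_left 3)).add_right 1
  have h3 := (h1 ν).mul (h1 (ν + d))
  constructor
  · rintro ⟨_, h⟩
    exact (h3.dvd_iff dvd_rfl).1 h
  · intro h
    exact ⟨Nat.mod_lt _ hq.pos, (h3.dvd_iff dvd_rfl).2 h⟩

theorem fan : ∃ K : ℕ, ∀ z : ℕ, 5 ≤ z → ∀ d ν : ℕ, (∀ q ∈ PP z, ¬ q ∣ d) →
    ∃ t < z ^ (2 * K + 5), ∀ q ∈ PP z, ¬ q ∣ (d * t + ν) ^ 2 + 3 * (d * t + ν) + 1 ∧
      ¬ q ∣ (d * t + (ν + d)) ^ 2 + 3 * (d * t + (ν + d)) + 1 := by
  obtain ⟨K, hK⟩ := sieve_res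
  refine ⟨K, fun z hz d ν hd => ?_⟩
  have h := hK z hz (BF d ν) (z ^ (2 * K + 5)) ?_
  · have hz' : (5 : ℝ) ≤ z := by exact_mod_cast hz
    have h1 : (0 : ℝ) < ((z ^ (2 * K + 5) : ℕ) : ℝ) / (2 * (z : ℝ) ^ 4) - (z : ℝ) ^ (2 * K) := by
      have h2 : ((z ^ (2 * K + 5) : ℕ) : ℝ) / (2 * (z : ℝ) ^ 4) = (z : ℝ) ^ (2 * K) * (z / 2) := by
        push_cast
        have : (z : ℝ) ≠ 0 := by positivity
        field_simp
        ring
      rw [h2]
      have h3 : (0 : ℝ) < (z : ℝ) ^ (2 * K) := by positivity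
      nlinarith
    have h4 := h1.trans_le h
    have h5 : 0 < ((range (z ^ (2 * K + 5))).filter (fun t => ∀ q ∈ PP z, ¬ t % q ∈ BF d ν q)).card := by
      exact_mod_cast h4
    obtain ⟨t, ht⟩ := card_pos.1 h5
    rw [mem_filter, mem_range] at ht
    refine ⟨t, ht.1, fun q hq => ?_⟩
    have hqp := (mem_PP.1 hq).1
    have h6 := ht.2 q hq
    rw [mem_BF hqp, hqp.dvd_mul, not_or] at h6
    exact h6
  · intro q hq
    have hqp := (mem_PP.1 hq).1
    refine ⟨?_, BF_card hqp (hd q hq)⟩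
    intro b hb
    unfold BF at hb
    rw [mem_filter, mem_range] at hb
    exact hb.1

end Pool.Agent.Lib.MP_d57abb_nt.ER
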