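import Pool.Agent.Lib.MP_d57abb_nt.ER.Col

/-!
# Many pairs `(x, y)` with `y` prime and rough norm
-/

namespace Pool.Agent.Lib.MP_d57abb_nt.ER

open Finset Pool.Agent.Lib.MP_42948a_nt.OA

/-- the primes used -/
def SS (z X : ℕ) : Finset ℕ := (Icc 1 X).filter (fun y => y.Prime ∧ X < y * z)

theorem pi_lower {X z : ℕ} (hX : 20 ≤ X) (hz : 4 * Real.log X ≤ z) :
    2 * (X : ℝ) / z ≤ (Nat.primeCounting X : ℝ) := by
  have hXr : (20 : ℝ) ≤ X := by exact_mod_cast hX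
  have hlog : 0 < Real.log X := Real.log_pos (by linarith)
  have hz0 : (0 : ℝ) < z := lt_of_lt_of_le (by linarith) hz
  have h := Chebyshev.pi_ge X
  refine le_trans ?_ h
  rw [div_le_div_iff₀ hz0 hlog]
  have hl2 : Real.log 2 > 0.6931471803 := Real.log_two_gt_d9
  have hl2' : Real.log 2 < 0.6931471808 := Real.log_two_lt_d9
  have h1 : Real.log ((X : ℝ) + 1) ≤ ((X : ℝ) + 1) / 16 + 4 * Real.log 2 - 1 := by
    have h2 : Real.log (((X : ℝ) + 1) / 16) ≤ ((X : ℝ) + 1) / 16 - 1 :=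
      Real.log_le_sub_one_of_pos (by positivity)
    have h3 : Real.log (((X : ℝ) + 1) / 16) = Real.log ((X : ℝ) + 1) - Real.log 16 :=
      Real.log_div (by positivity) (by norm_num)
    have h4 : Real.log 16 = 4 * Real.log 2 := by
      rw [show (16 : ℝ) = 2 ^ 4 by norm_num, Real.log_pow]
      norm_num
    linarith
  have h5 : (X : ℝ) ≤ 2 * ((X : ℝ) * Real.log 2 - Real.log ((X : ℝ) + 1)) := by nlinarith
  have h6 : 0 ≤ (X : ℝ) * Real.log 2 - Real.log ((X : ℝ) + 1) := by linarith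
  calc 2 * (X : ℝ) * Real.log X ≤ 2 * (2 * ((X : ℝ) * Real.log 2 - Real.log ((X : ℝ) + 1))) * Real.log X := by
        gcongr
    _ = ((X : ℝ) * Real.log 2 - Real.log ((X : ℝ) + 1)) * (4 * Real.log X) := by ring
    _ ≤ ((X : ℝ) * Real.log 2 - Real.log ((X : ℝ) + 1)) * z := by gcongr

theorem SS_card {X z : ℕ} (hX : 20 ≤ X) (hz : 4 * Real.log X ≤ z) (hz1 : 0 < z) :
    (X : ℝ) / z ≤ ((SS z X).card : ℝ) := by
  have h1 := pi_lower hX hz
  have h2 : Nat.primeCounting X ≤ (SS z X).card + X / z := by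
    have h3 : Nat.primeCounting X = ((range (X + 1)).filter Nat.Prime).card := by
      unfold Nat.primeCounting Nat.primeCounting'
      rw [Nat.count_eq_card_filter_range]
    rw [h3]
    have h4 : (range (X + 1)).filter Nat.Prime ⊆ SS z X ∪ Icc 1 (X / z) := by
      intro y hy
      rw [mem_filter, mem_range] at hy
      rw [mem_union]
      unfold SS
      rw [mem_filter, mem_Icc, mem_Icc]
      have h5 := hy.2.one_lt
      rcases Nat.lt_or_ge X (y * z) with h6 | h6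
      · left
        exact ⟨⟨by omega, by omega⟩, hy.2, h6⟩
      · right
        exact ⟨by omega, (Nat.le_div_iff_mul_le hz1).2 h6⟩
    refine (card_le_card h4).trans ((card_union_le _ _).trans ?_)
    rw [Nat.card_Icc, Nat.add_sub_cancel]
  have h3 : (Nat.primeCounting X : ℝ) ≤ ((SS z X).card : ℝ) + ((X / z : ℕ) : ℝ) := by exact_mod_cast h2
  have h4 : ((X / z : ℕ) : ℝ) ≤ (X : ℝ) / z := Nat.cast_div_le
  have h5 : 2 * (X : ℝ) / z = (X : ℝ) / z + (X : ℝ) / z := by ring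
  linarith

theorem many : ∃ K : ℕ, ∀ z X : ℕ, 5 ≤ z → 20 ≤ X → 4 * Real.log X ≤ z → z ^ (2 * K + 8) ≤ X →
    (X : ℝ) ^ 2 / (4 * (z : ℝ) ^ 6) ≤ ((∑ y ∈ SS z X, (Vy z y).card : ℕ) : ℝ) := by
  obtain ⟨K, hK⟩ := col
  refine ⟨K, fun z X hz hX hlog hXz => ?_⟩
  have hz0 : (0 : ℝ) < z := by exact_mod_cast (by omega : 0 < z)
  have hz5 : (5 : ℝ) ≤ z := by exact_mod_cast hz
  have h1 : ∀ y ∈ SS z X, (X : ℝ) / (4 * (z : ℝ) ^ 5) ≤ ((Vy z y).card : ℝ) := by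
    intro y hy
    unfold SS at hy
    rw [mem_filter, mem_Icc] at hy
    obtain ⟨⟨_, _⟩, hyp, hyX⟩ := hy
    have h2 : z ^ (2 * K + 7) < y := by
      have h3 : z ^ (2 * K + 7) * z < y * z := by
        calc z ^ (2 * K + 7) * z = z ^ (2 * K + 8) := by ring
          _ ≤ X := hXz
          _ < y * z := hyX
      exact Nat.lt_of_mul_lt_mul_right h3
    have h3 : z < y := by
      refine lt_of_le_of_lt ?_ h2
      exact Nat.le_self_pow (by omega) z
    refine le_trans ?_ (hK z hz y hyp h3)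
    have h4 : ((z ^ (2 * K + 7) : ℕ) : ℝ) ≤ (y : ℝ) := by exact_mod_cast h2.le
    push_cast at h4
    have h5 : (X : ℝ) ≤ (y : ℝ) * z := by exact_mod_cast hyX.le
    have h6 : (X : ℝ) / (4 * (z : ℝ) ^ 5) ≤ (y : ℝ) / (4 * (z : ℝ) ^ 4) := by
      rw [div_le_div_iff₀ (by positivity) (by positivity)]
      calc (X : ℝ) * (4 * (z : ℝ) ^ 4) ≤ (y : ℝ) * z * (4 * (z : ℝ) ^ 4) := by gcongr
        _ = (y : ℝ) * (4 * (z : ℝ) ^ 5) := by ring
    refine h6.trans ?_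
    have h7 : (z : ℝ) ^ (2 * K) + 1 ≤ (y : ℝ) / (4 * (z : ℝ) ^ 4) := by
      rw [le_div_iff₀ (by positivity)]
      have h8 : (1 : ℝ) ≤ (z : ℝ) ^ (2 * K) := one_le_pow₀ (by linarith)
      calc ((z : ℝ) ^ (2 * K) + 1) * (4 * (z : ℝ) ^ 4) ≤ ((z : ℝ) ^ (2 * K) + (z : ℝ) ^ (2 * K)) * (4 * (z : ℝ) ^ 4) := by
            gcongr
        _ = (z : ℝ) ^ (2 * K) * (z : ℝ) ^ 4 * 8 := by ring
        _ ≤ (z : ℝ) ^ (2 * K) * (z : ℝ) ^ 4 * (z : ℝ) ^ 3 := by
            have : (5 : ℝ) ^ 3 ≤ (z : ℝ) ^ 3 := pow_le_pow_left₀ (by norm_num) hz5 3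
            gcongr
            linarith
        _ = (z : ℝ) ^ (2 * K + 7) := by ring
        _ ≤ y := h4
    have h8 : (y : ℝ) / (2 * (z : ℝ) ^ 4) = (y : ℝ) / (4 * (z : ℝ) ^ 4) + (y : ℝ) / (4 * (z : ℝ) ^ 4) := by
      field_simp
      ring
    rw [h8]
    linarith
  have h2 := Finset.sum_le_sum h1
  rw [Finset.sum_const, nsmul_eq_mul] at h2
  push_cast
  refine le_trans ?_ h2
  have h3 := SS_card hX hlog (by omega : 0 < z)
  calc (X : ℝ) ^ 2 / (4 * (z : ℝ) ^ 6) = (X : ℝ) / z * ((X : ℝ) / (4 * (z : ℝ) ^ 5)) := by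
        field_simp
    _ ≤ ((SS z X).card : ℝ) * ((X : ℝ) / (4 * (z : ℝ) ^ 5)) := by gcongr

end Pool.Agent.Lib.MP_d57abb_nt.ER
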