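import Pool.Agent.Lib.MP_d57abb_nt.ER.Key
import Pool.Agent.Lib.MP_d57abb_nt.ER.Fan
import Pool.Agent.Lib.MP_d57abb_nt.ER.Primes

/-!
# Assembly
-/

namespace Pool.Agent.Lib.MP_d57abb_nt.ER

open Finset Pool.Agent.Lib.MP_42948a_nt.OA

theorem fan_NF : ∃ K₀ : ℕ, ∀ K ≥ K₀, ∀ z : ℕ, 5 ≤ z → ∀ d ν : ℕ, NF z d →
    ∃ t < z ^ (2 * K + 5), NF z (ff (d * t + ν)) ∧ NF z (ff (d * t + (ν + d))) := by
  obtain ⟨K₀, h⟩ := fan
  refine ⟨K₀, fun K hK z hz d ν hd => ?_⟩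
  obtain ⟨t, ht, h1⟩ := h z hz d ν hd
  refine ⟨t, lt_of_lt_of_le ht (Nat.pow_le_pow_right (by omega) (by omega)), ?_, ?_⟩
  · intro q hq
    exact (h1 q hq).1
  · intro q hq
    exact (h1 q hq).2

/-- The main inequality in terms of `z`. -/
theorem main_z : ∃ K : ℕ, ∀ z N m : ℕ, 5 ≤ z → 30 * z ^ (8 * K + 26) ≤ N → 5 * N ^ 2 < z ^ m →
    4 * Real.log N ≤ z → ∀ g : ℕ → ℤ, (∀ m n : ℕ, g (m * n) = g m * g n) →
    (∀ n : ℕ, 0 < n → g n = 1 ∨ g n = -1) →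
    (N : ℝ) ≤ 480 * (z : ℝ) ^ (4 * K + 16) * (3 * 2 ^ m * ((KK g z N).card : ℝ)) := by
  obtain ⟨K₁, h1⟩ := fan_NF
  obtain ⟨K₂, h2⟩ := many
  refine ⟨max K₁ K₂, fun z N m hz hN1 hm hlog g hmul hval => ?_⟩
  set K : ℕ := max K₁ K₂ with hK
  have hK1 : K₁ ≤ K := le_max_left _ _
  have hK2 : K₂ ≤ K := le_max_right _ _
  have hz0 : 0 < z := by omega
  set T : ℕ := z ^ (2 * K + 5) with hT
  have hT0 : 0 < T := Nat.pow_pos hz0
  have hB : 0 < 30 * T ^ 2 := by positivity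
  set X : ℕ := Nat.sqrt (N / (30 * T ^ 2)) with hX
  have hX1 : X ^ 2 * (30 * T ^ 2) ≤ N := (Nat.le_div_iff_mul_le hB).1 (Nat.sqrt_le' _)
  have hX2 : N < (X + 1) ^ 2 * (30 * T ^ 2) := (Nat.div_lt_iff_lt_mul hB).1 (Nat.lt_succ_sqrt' _)
  have hXz : z ^ (2 * K + 8) ≤ X := by
    by_contra hlt
    push Not at hlt
    have h3 : (X + 1) ^ 2 ≤ (z ^ (2 * K + 8)) ^ 2 := Nat.pow_le_pow_left hlt 2
    have h4 : N < 30 * z ^ (8 * K + 26) := by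
      calc N < (X + 1) ^ 2 * (30 * T ^ 2) := hX2
        _ ≤ (z ^ (2 * K + 8)) ^ 2 * (30 * T ^ 2) := Nat.mul_le_mul_right _ h3
        _ = 30 * z ^ (8 * K + 26) := by
          rw [hT]
          ring
    omega
  have hX20 : 20 ≤ X := by
    refine le_trans ?_ hXz
    calc 20 ≤ 5 ^ 2 := by norm_num
      _ ≤ z ^ 2 := Nat.pow_le_pow_left hz 2
      _ ≤ z ^ (2 * K + 8) := Nat.pow_le_pow_right hz0 (by omega)
  have hXN : X ≤ N := by
    have h3 : X ^ 2 * 1 ≤ X ^ 2 * (30 * T ^ 2) := Nat.mul_le_mul_left _ hB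
    nlinarith
  have hXlog : 4 * Real.log X ≤ z := by
    refine le_trans ?_ hlog
    have h3 : (0 : ℝ) < X := by exact_mod_cast (by omega : 0 < X)
    have h4 : (X : ℝ) ≤ N := by exact_mod_cast hXN
    have := Real.log_le_log h3 h4
    linarith
  have hXz2 : z ^ (2 * K₂ + 8) ≤ X :=
    (Nat.pow_le_pow_right hz0 (by omega)).trans hXz
  have h3 := h2 z X hz hX20 hXlog hXz2
  have h4 := key g hmul hval z T X N m (by omega)
    (fun d ν hd => h1 K hK1 z hz d ν hd) (by calc 30 * X ^ 2 * T ^ 2 = X ^ 2 * (30 * T ^ 2) := by ring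
      _ ≤ N := hX1) hm (SS z X) (by
        intro y hy
        unfold SS at hy
        rw [mem_filter, mem_Icc] at hy
        exact ⟨hy.2.1, hy.1.2⟩)
  have h5 : ((∑ y ∈ SS z X, (Vy z y).card : ℕ) : ℝ) ≤ 3 * 2 ^ m * ((KK g z N).card : ℝ) := by
    exact_mod_cast h4
  have h6 : (X : ℝ) ^ 2 / (4 * (z : ℝ) ^ 6) ≤ 3 * 2 ^ m * ((KK g z N).card : ℝ) := h3.trans h5
  have hzr : (0 : ℝ) < z := by exact_mod_cast hz0
  have h7 : (N : ℝ) ≤ ((X : ℝ) + 1) ^ 2 * (30 * ((z : ℝ) ^ (2 * K + 5)) ^ 2) := by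
    have h8 : ((N : ℕ) : ℝ) ≤ (((X + 1) ^ 2 * (30 * T ^ 2) : ℕ) : ℝ) := by exact_mod_cast hX2.le
    rw [hT] at h8
    push_cast at h8
    exact h8
  have hX1r : (1 : ℝ) ≤ X := by exact_mod_cast (by omega : 1 ≤ X)
  calc (N : ℝ) ≤ ((X : ℝ) + 1) ^ 2 * (30 * ((z : ℝ) ^ (2 * K + 5)) ^ 2) := h7
    _ ≤ (2 * (X : ℝ)) ^ 2 * (30 * ((z : ℝ) ^ (2 * K + 5)) ^ 2) := by
      gcongr
      linarith
    _ = 480 * (z : ℝ) ^ (4 * K + 16) * ((X : ℝ) ^ 2 / (4 * (z : ℝ) ^ 6)) := by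
      have : (z : ℝ) ≠ 0 := hzr.ne'
      field_simp
      ring
    _ ≤ 480 * (z : ℝ) ^ (4 * K + 16) * (3 * 2 ^ m * ((KK g z N).card : ℝ)) := by gcongr

theorem log_exp_sqrt : ∃ N₀ : ℕ, ∀ N ≥ N₀, 1 ≤ N ∧ 4 * Real.log N ≤ Real.exp (√(Real.log N)) ∧
    5 ≤ Real.exp (√(Real.log N)) := by
  have ht : Filter.Tendsto (fun N : ℕ => √(Real.log (N : ℝ))) Filter.atTop Filter.atTop :=
    (Real.tendsto_sqrt_atTop).comp (Real.tendsto_log_atTop.comp tendsto_natCast_atTop_atTop)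
  have h1 := (Real.tendsto_exp_div_pow_atTop 2).comp ht
  have h2 := Real.tendsto_exp_atTop.comp ht
  have h3 := (Filter.tendsto_atTop.1 h1) 4
  have h4 := (Filter.tendsto_atTop.1 h2) 5
  obtain ⟨N₁, h5⟩ := Filter.eventually_atTop.1 (h3.and h4)
  refine ⟨max N₁ 2, fun N hN => ?_⟩
  have hN2 : 2 ≤ N := (le_max_right _ _).trans hN
  obtain ⟨h6, h7⟩ := h5 N ((le_max_left _ _).trans hN)
  have hN1 : (1 : ℝ) < N := by exact_mod_cast (by omega : 1 < N)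
  have hlog : 0 < Real.log N := Real.log_pos hN1
  refine ⟨by omega, ?_, h7⟩
  simp only [Function.comp_apply] at h6
  rw [Real.sq_sqrt hlog.le, le_div_iff₀ hlog] at h6
  exact h6

/-- **Even rough values**, uniform version. -/
theorem main_unif : ∃ C N₀ : ℕ, ∀ g : ℕ → ℤ, (∀ m n : ℕ, g (m * n) = g m * g n) →
    (∀ n : ℕ, 0 < n → g n = 1 ∨ g n = -1) → ∀ N ≥ N₀, ∀ z : ℕ,
    Real.exp (√(Real.log N)) ≤ z → z ^ C ≤ N →
    (N : ℝ) / (z : ℝ) ^ C ≤ ((KK g z N).card : ℝ) := by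
  obtain ⟨K, hK⟩ := main_z
  obtain ⟨N₀, hN₀⟩ := log_exp_sqrt
  refine ⟨8 * K + 30, N₀, fun g hmul hval N hN z hz hzN => ?_⟩
  obtain ⟨hN1, hlog, hexp⟩ := hN₀ N hN
  have hz5r : (5 : ℝ) ≤ z := hexp.trans hz
  have hz5 : 5 ≤ z := by exact_mod_cast hz5r
  have hz0 : 0 < z := by omega
  set L : ℕ := Nat.log z N with hL
  have hm : 5 * N ^ 2 < z ^ (2 * L + 4) := by
    have h3 : N < z ^ (L + 1) := Nat.lt_pow_succ_log_self (by omega) N
    have h4 : N ^ 2 < (z ^ (L + 1)) ^ 2 := Nat.pow_lt_pow_left h3 two_ne_zero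
    have h5 : 5 ≤ z ^ 2 := by nlinarith
    calc 5 * N ^ 2 < 5 * (z ^ (L + 1)) ^ 2 := by omega
      _ ≤ z ^ 2 * (z ^ (L + 1)) ^ 2 := Nat.mul_le_mul_right _ h5
      _ = z ^ (2 * L + 4) := by ring
  have h1 : 30 * z ^ (8 * K + 26) ≤ N := by
    refine le_trans ?_ hzN
    have h5 : 30 ≤ z ^ 4 := by
      calc 30 ≤ 5 ^ 4 := by norm_num
        _ ≤ z ^ 4 := Nat.pow_le_pow_left hz5 4
    calc 30 * z ^ (8 * K + 26) ≤ z ^ 4 * z ^ (8 * K + 26) := Nat.mul_le_mul_right _ h5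
      _ = z ^ (8 * K + 30) := by ring
  have h := hK z N (2 * L + 4) hz5 h1 hm (hlog.trans hz) g hmul hval
  set k : ℝ := ((KK g z N).card : ℝ) with hk
  have hk0 : 0 ≤ k := Nat.cast_nonneg _
  have hzr : (0 : ℝ) < z := by exact_mod_cast hz0
  have hNr : (1 : ℝ) ≤ N := by exact_mod_cast hN1
  have hlogN : 0 ≤ Real.log N := Real.log_nonneg hNr
  -- `2 ^ L ≤ z`
  have hL2 : (2 : ℝ) ^ L ≤ z := by
    have hlz : √(Real.log N) ≤ Real.log z := by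
      rw [← Real.log_exp (√(Real.log N))]
      exact Real.log_le_log (Real.exp_pos _) hz
    have hlz1 : 0 < Real.log z := Real.log_pos (by linarith)
    have h3 : Real.log N ≤ Real.log z * Real.log z := by
      calc Real.log N = √(Real.log N) * √(Real.log N) := (Real.mul_self_sqrt hlogN).symm
        _ ≤ Real.log z * Real.log z := by
          have := Real.sqrt_nonneg (Real.log N)
          gcongr
    have h4 : (L : ℝ) * Real.log z ≤ Real.log N := by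
      have h5 : z ^ L ≤ N := Nat.pow_log_le_self z (by omega)
      have h6 : (z : ℝ) ^ L ≤ N := by exact_mod_cast h5
      rw [← Real.log_pow]
      exact Real.log_le_log (by positivity) h6
    have h5 : (L : ℝ) ≤ Real.log z := le_of_mul_le_mul_right (h4.trans h3) hlz1
    calc (2 : ℝ) ^ L ≤ (Real.exp 1) ^ L := by
          refine pow_le_pow_left₀ (by norm_num) ?_ L
          have := Real.add_one_le_exp (1 : ℝ)
          linarith
      _ = Real.exp L := by rw [← Real.exp_nat_mul, mul_one]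
      _ ≤ Real.exp (Real.log z) := Real.exp_le_exp.2 h5
      _ = z := Real.exp_log hzr
  have h3 : (2 : ℝ) ^ (2 * L + 4) ≤ 16 * (z : ℝ) ^ 2 := by
    calc (2 : ℝ) ^ (2 * L + 4) = 16 * ((2 : ℝ) ^ L) ^ 2 := by ring
      _ ≤ 16 * (z : ℝ) ^ 2 := by gcongr
  have h4 : (23040 : ℝ) ≤ (z : ℝ) ^ 7 := by
    calc (23040 : ℝ) ≤ 5 ^ 7 := by norm_num
      _ ≤ (z : ℝ) ^ 7 := pow_le_pow_left₀ (by norm_num) hz5r 7
  rw [div_le_iff₀ (by positivity), mul_comm]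
  calc (N : ℝ) ≤ 480 * (z : ℝ) ^ (4 * K + 16) * (3 * 2 ^ (2 * L + 4) * k) := h
    _ ≤ 480 * (z : ℝ) ^ (4 * K + 16) * (3 * (16 * (z : ℝ) ^ 2) * k) := by gcongr
    _ = 23040 * (z : ℝ) ^ (4 * K + 18) * k := by ring
    _ ≤ (z : ℝ) ^ 7 * (z : ℝ) ^ (4 * K + 18) * k := by gcongr
    _ = (z : ℝ) ^ (4 * K + 25) * k := by ring
    _ ≤ (z : ℝ) ^ (8 * K + 30) * k :=
      mul_le_mul_of_nonneg_right (pow_le_pow_right₀ (by linarith) (by omega)) hk0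

end Pool.Agent.Lib.MP_d57abb_nt.ER
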