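import Pool.Agent.Lib.MP_d57abb_nt.ER.Tri
import Pool.Agent.Lib.MP_d57abb_nt.ER.Col

/-!
# From values of the norm form to pairs `(d, ν)`
-/

namespace Pool.Agent.Lib.MP_d57abb_nt.ER

open Finset Pool.Agent.Lib.MP_42948a_nt.OA

/-- the form -/
def QQ (x y : ℕ) : ℕ := x ^ 2 + 3 * x * y + y ^ 2

/-- the residue class of `x / y` modulo `QQ x y` -/
noncomputable def nu (x y : ℕ) : ℕ := ((x : ZMod (QQ x y)) * (y : ZMod (QQ x y))⁻¹).val

theorem QQ_pos {x y : ℕ} (hx : 0 < x) : 0 < QQ x y := by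
  unfold QQ
  positivity

theorem QQ_gt {x y : ℕ} (hx : 0 < x) : y ^ 2 < QQ x y := by
  unfold QQ
  have : 0 < x ^ 2 := by positivity
  omega

theorem QQ_lt {x y : ℕ} (hxy : x < y) : QQ x y < 5 * y ^ 2 := by
  unfold QQ
  nlinarith

theorem QQ_coprime {x y : ℕ} (hx : 0 < x) (hxy : x < y) (hy : y.Prime) : Nat.Coprime y (QQ x y) := by
  rw [hy.coprime_iff_not_dvd]
  intro h
  have h1 : y ∣ x ^ 2 := by
    have h2 : y ∣ 3 * x * y + y ^ 2 := by
      refine dvd_add (Dvd.intro_left _ rfl) ?_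
      exact dvd_pow_self y two_ne_zero
    have h3 : QQ x y = x ^ 2 + (3 * x * y + y ^ 2) := by
      unfold QQ
      ring
    rw [h3] at h
    exact (Nat.dvd_add_left h2).1 h
  have h2 := hy.dvd_of_dvd_pow h1
  exact absurd (Nat.le_of_dvd hx h2) (by omega)

theorem nu_lt {x y : ℕ} (hx : 0 < x) : nu x y < QQ x y := by
  have : NeZero (QQ x y) := ⟨(QQ_pos hx).ne'⟩
  exact ZMod.val_lt _

theorem nu_mul {x y : ℕ} (hx : 0 < x) (hxy : x < y) (hy : y.Prime) :
    nu x y * y ≡ x [MOD QQ x y] := by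
  have : NeZero (QQ x y) := ⟨(QQ_pos hx).ne'⟩
  rw [← ZMod.natCast_eq_natCast_iff]
  unfold nu
  push_cast
  rw [ZMod.natCast_val, ZMod.cast_id', id, mul_assoc, mul_comm _ (y : ZMod (QQ x y)),
    ZMod.coe_mul_inv_eq_one y (QQ_coprime hx hxy hy), mul_one]

theorem nu_dvd {x y : ℕ} (hx : 0 < x) (hxy : x < y) (hy : y.Prime) : QQ x y ∣ ff (nu x y) := by
  have h1 := nu_mul hx hxy hy
  have h2 : (nu x y * y) ^ 2 + 3 * (nu x y * y) * y + y ^ 2 ≡ x ^ 2 + 3 * x * y + y ^ 2 [MOD QQ x y] :=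
    ((h1.pow 2).add ((h1.mul_left 3).mul_right y)).add_right (y ^ 2)
  have h3 : QQ x y ∣ (nu x y * y) ^ 2 + 3 * (nu x y * y) * y + y ^ 2 := by
    refine (h2.dvd_iff dvd_rfl).2 ?_
    exact dvd_of_eq rfl
  have h4 : (nu x y * y) ^ 2 + 3 * (nu x y * y) * y + y ^ 2 = y ^ 2 * ff (nu x y) := by
    unfold ff
    ring
  rw [h4] at h3
  exact ((QQ_coprime hx hxy hy).symm.pow_right 2).dvd_of_dvd_mul_left h3

theorem nu_inj {x y x' y' : ℕ} (hx : 0 < x) (hxy : x < y) (hy : y.Prime) (hx' : 0 < x') (hxy' : x' < y')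
    (hy' : y'.Prime) (hQ : QQ x y = QQ x' y') (hn : nu x y = nu x' y') : x = x' ∧ y = y' := by
  have h1 := nu_mul hx hxy hy
  have h2 := nu_mul hx' hxy' hy'
  rw [← hQ, ← hn] at h2
  set D : ℕ := QQ x y with hD
  have h3 : x * y' ≡ x' * y [MOD D] := by
    calc x * y' ≡ nu x y * y * y' [MOD D] := (h1.mul_right y').symm
      _ = nu x y * y' * y := by ring
      _ ≡ x' * y [MOD D] := h2.mul_right y
  have g1 : y ^ 2 < D := QQ_gt hx
  have g2 : y' ^ 2 < D := by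
    rw [hQ]
    exact QQ_gt hx'
  have h4 : x * y' < D := by
    rcases le_total y y' with h | h
    · nlinarith
    · nlinarith
  have h5 : x' * y < D := by
    rcases le_total y y' with h | h
    · nlinarith
    · nlinarith
  have h6 : x * y' = x' * y := Nat.ModEq.eq_of_lt_of_lt h3 h4 h5
  have h7 : y ∣ x * y' := by
    rw [h6]
    exact Dvd.intro_left _ rfl
  have h8 : y ∣ y' := by
    rcases (hy.dvd_mul).1 h7 with h | h
    · exact absurd (Nat.le_of_dvd hx h) (by omega)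
    · exact h
  have h9 : y = y' := (Nat.prime_dvd_prime_iff_eq hy hy').1 h8
  refine ⟨?_, h9⟩
  rw [← h9] at h6
  exact Nat.eq_of_mul_eq_mul_right hy.pos h6

end Pool.Agent.Lib.MP_d57abb_nt.ER
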