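import Pool.Agent.Lib.MP_d57abb_nt.ER.Inj

/-!
# The counting inequality
-/

namespace Pool.Agent.Lib.MP_d57abb_nt.ER

open Finset Pool.Agent.Lib.MP_42948a_nt.OA

open Classical in
/-- the good `k` -/
noncomputable def KK (g : ℕ → ℤ) (z N : ℕ) : Finset ℕ :=
  (Icc 1 N).filter (fun k => g (ff k) = 1 ∧ NF z (ff k))

theorem data (g : ℕ → ℤ) (hmul : ∀ m n : ℕ, g (m * n) = g m * g n)
    (hval : ∀ n : ℕ, 0 < n → g n = 1 ∨ g n = -1) (z T X N : ℕ)
    (hfan : ∀ d ν : ℕ, NF z d → ∃ t < T, NF z (ff (d * t + ν)) ∧ NF z (ff (d * t + (ν + d))))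
    (hN : 30 * X ^ 2 * T ^ 2 ≤ N) {x y : ℕ} (hx : 0 < x) (hxy : x < y) (hy : y.Prime) (hyX : y ≤ X)
    (hQ : NF z (QQ x y)) :
    ∃ w : ℕ × ℕ × ℕ, ∃ a e : ℕ, a % QQ x y = nu x y ∧ ff a = QQ x y * e ∧
      ((w.1 = 0 ∧ w.2.2 = a ∧ w.2.1 = QQ x y) ∨ (w.1 = 1 ∧ w.2.2 = a + QQ x y ∧ w.2.1 = QQ x y) ∨
        (w.1 = 2 ∧ w.2.2 = a + e ∧ w.2.1 = e)) ∧ w.2.1 ∣ ff w.2.2 ∧ w.2.2 ∈ KK g z N := by
  classical
  set d : ℕ := QQ x y with hd
  have hd0 : 0 < d := QQ_pos hx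
  have hd4 : 4 < d := by
    have h1 : y ^ 2 < d := QQ_gt hx
    have h2 := hy.two_le
    nlinarith
  obtain ⟨t, ht, h1, h2⟩ := hfan d (nu x y) hQ
  set a : ℕ := d * t + nu x y with ha
  have hν : nu x y < d := nu_lt hx
  have hmod : a % d = nu x y := by
    rw [ha, Nat.mul_add_mod, Nat.mod_eq_of_lt hν]
  have hda : d ∣ ff a := by
    have h3 : ff a ≡ ff (nu x y) [MOD d] := by
      have h4 : a ≡ nu x y [MOD d] := by
        unfold Nat.ModEq
        rw [hmod, Nat.mod_eq_of_lt hν]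
      exact ((h4.pow 2).add (h4.mul_left 3)).add_right 1
    exact (h3.dvd_iff dvd_rfl).2 (nu_dvd hx hxy hy)
  obtain ⟨e, he⟩ := hda
  have h2' : NF z (ff (a + d)) := by
    have h3 : d * t + (nu x y + d) = a + d := by rw [ha]; ring
    rwa [h3] at h2
  obtain ⟨k, hk, hk1, hk2⟩ := tri_choice g hmul hval he h1 h2'
  -- sizes
  have ha1 : 1 ≤ a := by
    by_contra h0
    have h3 : a = 0 := by omega
    rw [h3] at he
    have h4 : ff 0 = 1 := by unfold ff; norm_num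
    rw [h4] at he
    have h5 : d ∣ 1 := Dvd.intro _ he.symm
    have := Nat.dvd_one.1 h5
    omega
  have haT : a < d * T := by
    have h3 : d * (t + 1) ≤ d * T := Nat.mul_le_mul_left d ht
    have h4 : d * (t + 1) = d * t + d := by ring
    omega
  have hT : 1 ≤ T := by omega
  have he0 : 1 ≤ e := by
    rcases Nat.eq_zero_or_pos e with h0 | h0
    · rw [h0, mul_zero] at he
      unfold ff at he
      omega
    · exact h0
  have heT : e < 5 * (d * T ^ 2) := by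
    have h3 : ff a ≤ 5 * a ^ 2 := by
      unfold ff
      nlinarith
    have h4 : a ^ 2 < (d * T) ^ 2 := Nat.pow_lt_pow_left haT two_ne_zero
    have h5 : d * e < d * (5 * (d * T ^ 2)) := by
      calc d * e = ff a := he.symm
        _ ≤ 5 * a ^ 2 := h3
        _ < 5 * (d * T) ^ 2 := by omega
        _ = d * (5 * (d * T ^ 2)) := by ring
    exact Nat.lt_of_mul_lt_mul_left h5
  have hdT : 6 * (d * T ^ 2) ≤ N := by
    refine le_trans ?_ hN
    have h3 : d ≤ 5 * X ^ 2 := by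
      have h4 : d < 5 * y ^ 2 := QQ_lt hxy
      have h5 : y ^ 2 ≤ X ^ 2 := Nat.pow_le_pow_left hyX 2
      omega
    calc 6 * (d * T ^ 2) ≤ 6 * (5 * X ^ 2 * T ^ 2) := by gcongr
      _ = 30 * X ^ 2 * T ^ 2 := by ring
  have hTT : d * T ≤ d * T ^ 2 := by
    refine Nat.mul_le_mul_left d ?_
    nlinarith
  have hd2 : d ≤ d * T ^ 2 := by
    have : 1 ≤ T ^ 2 := Nat.one_le_pow _ _ hT
    nlinarith
  have hkN : 1 ≤ k ∧ k ≤ N := by
    rcases hk with h | h | h <;> rw [h] <;> constructor <;> omega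
  have hkK : k ∈ KK g z N := by
    unfold KK
    rw [mem_filter, mem_Icc]
    exact ⟨hkN, hk2, hk1⟩
  rcases hk with h | h | h
  · refine ⟨(0, d, k), a, e, hmod, he, Or.inl ⟨rfl, h, rfl⟩, ?_, hkK⟩
    simp only
    rw [h, he]
    exact Dvd.intro _ rfl
  · refine ⟨(1, d, k), a, e, hmod, he, Or.inr (Or.inl ⟨rfl, h, rfl⟩), ?_, hkK⟩
    simp only
    rw [h, tri_one he]
    exact Dvd.intro _ rfl
  · refine ⟨(2, e, k), a, e, hmod, he, Or.inr (Or.inr ⟨rfl, h, rfl⟩), ?_, hkK⟩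
    simp only
    rw [h, tri_two he]
    exact Dvd.intro _ rfl

theorem key (g : ℕ → ℤ) (hmul : ∀ m n : ℕ, g (m * n) = g m * g n)
    (hval : ∀ n : ℕ, 0 < n → g n = 1 ∨ g n = -1) (z T X N m : ℕ) (hz : 2 ≤ z)
    (hfan : ∀ d ν : ℕ, NF z d → ∃ t < T, NF z (ff (d * t + ν)) ∧ NF z (ff (d * t + (ν + d))))
    (hN : 30 * X ^ 2 * T ^ 2 ≤ N) (hm : 5 * N ^ 2 < z ^ m) (S : Finset ℕ)
    (hS : ∀ y ∈ S, y.Prime ∧ y ≤ X) :
    ∑ y ∈ S, (Vy z y).card ≤ 3 * 2 ^ m * (KK g z N).card := by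
  classical
  set V : Finset (Σ _ : ℕ, ℕ) := S.sigma (fun y => Vy z y) with hV
  have hVc : V.card = ∑ y ∈ S, (Vy z y).card := by rw [hV, card_sigma]
  have hmem : ∀ v ∈ V, 0 < v.2 ∧ v.2 < v.1 ∧ v.1.Prime ∧ v.1 ≤ X ∧ NF z (QQ v.2 v.1) := by
    intro v hv
    rw [hV, mem_sigma] at hv
    obtain ⟨h1, h2⟩ := hv
    unfold Vy at h2
    rw [mem_filter, mem_Ico] at h2
    exact ⟨h2.1.1, h2.1.2, (hS _ h1).1, (hS _ h1).2, h2.2⟩
  have hex : ∀ v ∈ V, ∃ w : ℕ × ℕ × ℕ, ∃ a e : ℕ, a % QQ v.2 v.1 = nu v.2 v.1 ∧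
      ff a = QQ v.2 v.1 * e ∧
      ((w.1 = 0 ∧ w.2.2 = a ∧ w.2.1 = QQ v.2 v.1) ∨
        (w.1 = 1 ∧ w.2.2 = a + QQ v.2 v.1 ∧ w.2.1 = QQ v.2 v.1) ∨
        (w.1 = 2 ∧ w.2.2 = a + e ∧ w.2.1 = e)) ∧ w.2.1 ∣ ff w.2.2 ∧ w.2.2 ∈ KK g z N := by
    intro v hv
    obtain ⟨h1, h2, h3, h4, h5⟩ := hmem v hv
    exact data g hmul hval z T X N hfan hN h1 h2 h3 h4 h5
  choose! Φ A E hΦ using hex
  set W : Finset (ℕ × (Σ _ : ℕ, ℕ)) := (range 3) ×ˢ ((KK g z N).sigma (fun k => (ff k).divisors)) with hW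
  have hWc : W.card ≤ 3 * 2 ^ m * (KK g z N).card := by
    rw [hW, card_product, card_range, card_sigma]
    have h1 : ∑ k ∈ KK g z N, (ff k).divisors.card ≤ ∑ k ∈ KK g z N, 2 ^ m := by
      refine Finset.sum_le_sum fun k hk => ?_
      unfold KK at hk
      rw [mem_filter, mem_Icc] at hk
      refine card_div_le (by unfold ff; omega) hz hk.2.2 ?_
      refine lt_of_le_of_lt ?_ hm
      unfold ff
      have h2 : k ^ 2 ≤ N ^ 2 := Nat.pow_le_pow_left hk.1.2 2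
      have h3 : 1 ≤ k := hk.1.1
      nlinarith
    rw [Finset.sum_const, smul_eq_mul] at h1
    calc 3 * ∑ k ∈ KK g z N, (ff k).divisors.card ≤ 3 * ((KK g z N).card * 2 ^ m) := by omega
      _ = 3 * 2 ^ m * (KK g z N).card := by ring
  rw [← hVc]
  refine le_trans ?_ hWc
  refine Finset.card_le_card_of_injOn (fun v => ((Φ v).1, (⟨(Φ v).2.2, (Φ v).2.1⟩ : Σ _ : ℕ, ℕ))) ?_ ?_
  · intro v hv
    rw [mem_coe] at hv
    obtain ⟨h1, h2, h3, h4, h5⟩ := hΦ v hv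
    rw [hW, mem_coe, mem_product, mem_range, mem_sigma]
    refine ⟨?_, h5, ?_⟩
    · simp only
      rcases h3 with h | h | h <;> rw [h.1] <;> norm_num
    · simp only
      rw [Nat.mem_divisors]
      exact ⟨h4, by unfold ff; omega⟩
  · intro v hv v' hv' hvv
    rw [mem_coe] at hv hv'
    simp only [Prod.mk.injEq, Sigma.mk.injEq, heq_eq_eq] at hvv
    obtain ⟨c1, c2, c3⟩ := hvv
    obtain ⟨h1, h2, h3, h4, h5⟩ := hΦ v hv
    obtain ⟨h1', h2', h3', h4', h5'⟩ := hΦ v' hv'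
    obtain ⟨m1, m2, m3, m4, m5⟩ := hmem v hv
    obtain ⟨m1', m2', m3', m4', m5'⟩ := hmem v' hv'
    have hQd : QQ v.2 v.1 = QQ v'.2 v'.1 ∧ A v = A v' := by
      rcases h3 with h | h | h
      · rcases h3' with h' | h' | h'
        · refine ⟨?_, ?_⟩
          · rw [← h.2.2, ← h'.2.2, c3]
          · rw [← h.2.1, ← h'.2.1, c2]
        · have := h.1.symm.trans (c1.trans h'.1)
          omega
        · have := h.1.symm.trans (c1.trans h'.1)
          omega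
      · rcases h3' with h' | h' | h'
        · have := h.1.symm.trans (c1.trans h'.1)
          omega
        · have e1 : QQ v.2 v.1 = QQ v'.2 v'.1 := by rw [← h.2.2, ← h'.2.2, c3]
          refine ⟨e1, ?_⟩
          have e2 := h.2.1.symm.trans (c2.trans h'.2.1)
          rw [e1] at e2
          exact Nat.add_right_cancel e2
        · have := h.1.symm.trans (c1.trans h'.1)
          omega
      · rcases h3' with h' | h' | h'
        · have := h.1.symm.trans (c1.trans h'.1)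
          omega
        · have := h.1.symm.trans (c1.trans h'.1)
          omega
        · have e1 : E v = E v' := by rw [← h.2.2, ← h'.2.2, c3]
          have e2 := h.2.1.symm.trans (c2.trans h'.2.1)
          rw [e1] at e2
          have e3 : A v = A v' := Nat.add_right_cancel e2
          refine ⟨?_, e3⟩
          rw [e3, e1] at h2
          have e4 : QQ v.2 v.1 * E v' = QQ v'.2 v'.1 * E v' := h2.symm.trans h2'
          have e5 : 0 < E v' := by
            rcases Nat.eq_zero_or_pos (E v') with h0 | h0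
            · rw [h0, mul_zero] at h2'
              unfold ff at h2'
              omega
            · exact h0
          exact Nat.eq_of_mul_eq_mul_right e5 e4
    have hνν : nu v.2 v.1 = nu v'.2 v'.1 := by
      rw [← h1, ← h1', hQd.1, hQd.2]
    obtain ⟨r1, r2⟩ := nu_inj m1 m2 m3 m1' m2' m3' hQd.1 hνν
    obtain ⟨a1, b1⟩ := v
    obtain ⟨a2, b2⟩ := v'
    simp only at r1 r2
    rw [r1, r2]

end Pool.Agent.Lib.MP_d57abb_nt.ER
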