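import Pool.Agent.Lib.MP_42948a_nt.OA.Defs

/-!
# Lower bound for the sieve product with densities at most `4 / p`
-/

namespace Pool.Agent.Lib.MP_d57abb_nt.ER

open Finset Pool.Agent.Lib.MP_42948a_nt.OA

theorem PP_succ_prime {z : ℕ} (h : (z + 1).Prime) : PP (z + 1) = insert (z + 1) (PP z) := by
  ext p
  simp only [PP, mem_filter, mem_Icc, mem_insert]
  constructor
  · rintro ⟨⟨h1, h2⟩, h3⟩
    by_cases h4 : p = z + 1
    · exact Or.inl h4
    · exact Or.inr ⟨⟨h1, by omega⟩, h3⟩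
  · rintro (rfl | ⟨⟨h1, h2⟩, h3⟩)
    · exact ⟨⟨by omega, le_rfl⟩, h⟩
    · exact ⟨⟨h1, by omega⟩, h3⟩

theorem PP_succ_not {z : ℕ} (h : ¬ (z + 1).Prime) : PP (z + 1) = PP z := by
  ext p
  simp only [PP, mem_filter, mem_Icc]
  constructor
  · rintro ⟨⟨h1, h2⟩, h3⟩
    have h4 : p ≠ z + 1 := by
      rintro rfl
      exact h h3
    exact ⟨⟨h1, by omega⟩, h3⟩
  · rintro ⟨⟨h1, h2⟩, h3⟩
    exact ⟨⟨h1, by omega⟩, h3⟩

private theorem main4 (z : ℕ) (hz : 5 ≤ z) (g : ℕ → ℝ)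
    (hg : ∀ p ∈ PP z, 0 ≤ g p ∧ g p ≤ 3 / 4 ∧ g p ≤ 4 / p) :
    1 / ((z : ℝ) * (z - 1) * (z - 2) * (z - 3)) ≤ ∏ p ∈ PP z, (1 - g p) := by
  induction z, hz using Nat.le_induction with
  | base =>
    have h1 : PP 5 = {2, 3, 5} := by decide
    have a2 := (hg 2 (by rw [h1]; simp)).2.1
    have a3 := (hg 3 (by rw [h1]; simp)).2.1
    have a5 := (hg 5 (by rw [h1]; simp)).2.1
    rw [h1, prod_insert (by decide), prod_insert (by decide), prod_singleton]
    have b2 : (1 : ℝ) / 4 ≤ 1 - g 2 := by linarith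
    have b3 : (1 : ℝ) / 4 ≤ 1 - g 3 := by linarith
    have b5 : (1 : ℝ) / 4 ≤ 1 - g 5 := by linarith
    have c1 : (1 : ℝ) / 4 * (1 / 4) ≤ (1 - g 3) * (1 - g 5) := mul_le_mul b3 b5 (by norm_num) (by linarith)
    have c2 : (1 : ℝ) / 4 * (1 / 4 * (1 / 4)) ≤ (1 - g 2) * ((1 - g 3) * (1 - g 5)) :=
      mul_le_mul b2 c1 (by norm_num) (by linarith)
    refine le_trans ?_ c2
    norm_num
  | succ z hz ih =>
    have hz' : (5 : ℝ) ≤ z := by exact_mod_cast hz
    have hsub : PP z ⊆ PP (z + 1) := by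
      intro p hp
      simp only [PP, mem_filter, mem_Icc] at hp ⊢
      exact ⟨⟨hp.1.1, by omega⟩, hp.2⟩
    have ih' := ih (fun p hp => hg p (hsub hp))
    have h1 : (0 : ℝ) < z - 1 := by linarith
    have h2 : (0 : ℝ) < z - 2 := by linarith
    have h3 : (0 : ℝ) < z - 3 := by linarith
    have h0 : (0 : ℝ) < z := by linarith
    have hpos : (0 : ℝ) < 1 / ((z : ℝ) * (z - 1) * (z - 2) * (z - 3)) := by positivity
    have hkey : 1 / ((z : ℝ) * (z - 1) * (z - 2) * (z - 3)) * (1 - 4 / (z + 1)) =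
        1 / (((z + 1 : ℕ) : ℝ) * (((z + 1 : ℕ) : ℝ) - 1) * (((z + 1 : ℕ) : ℝ) - 2) * (((z + 1 : ℕ) : ℝ) - 3)) := by
      push_cast
      have e1 : (z : ℝ) + 1 - 1 = z := by ring
      have e2 : (z : ℝ) + 1 - 2 = z - 1 := by ring
      have e3 : (z : ℝ) + 1 - 3 = z - 2 := by ring
      rw [e1, e2, e3]
      have h4 : (z : ℝ) + 1 ≠ 0 := by linarith
      field_simp
      ring
    have h4z : (4 : ℝ) / (z + 1) ≤ 1 := by
      rw [div_le_one (by linarith)]
      linarith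
    by_cases hpr : (z + 1).Prime
    · have h5 : z + 1 ∉ PP z := by
        simp only [PP, mem_filter, mem_Icc]
        omega
      have h6 := (hg (z + 1) (by rw [PP_succ_prime hpr]; exact mem_insert_self _ _)).2.2
      push_cast at h6
      rw [PP_succ_prime hpr, prod_insert h5, ← hkey, mul_comm]
      exact mul_le_mul (by linarith) ih' hpos.le (by linarith)
    · rw [PP_succ_not hpr, ← hkey]
      refine le_trans ?_ ih'
      have h4z0 : (0 : ℝ) ≤ 4 / (z + 1) := by positivity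
      exact mul_le_of_le_one_right hpos.le (by linarith)

theorem prod_ge4 (z : ℕ) (hz : 5 ≤ z) (g : ℕ → ℝ)
    (hg : ∀ p ∈ PP z, 0 ≤ g p ∧ g p ≤ 3 / 4 ∧ g p ≤ 4 / p) :
    1 / (z : ℝ) ^ 4 ≤ ∏ p ∈ PP z, (1 - g p) := by
  refine le_trans ?_ (main4 z hz g hg)
  have h1 : (5 : ℝ) ≤ z := by exact_mod_cast hz
  have a1 : (0 : ℝ) < z - 1 := by linarith
  have a2 : (0 : ℝ) < z - 2 := by linarith
  have a3 : (0 : ℝ) < z - 3 := by linarith
  have a0 : (0 : ℝ) < z := by linarith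
  refine one_div_le_one_div_of_le (by positivity) ?_
  have e : (z : ℝ) ^ 4 = z * z * z * z := by ring
  rw [e]
  have b1 : (z : ℝ) * (z - 1) ≤ z * z := by nlinarith
  have b2 : (z : ℝ) * (z - 1) * (z - 2) ≤ z * z * z := by
    exact mul_le_mul b1 (by linarith) a2.le (by positivity)
  exact mul_le_mul b2 (by linarith) a3.le (by positivity)

end Pool.Agent.Lib.MP_d57abb_nt.ER
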