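import Pool.Agent.Lib.MP_42948a_nt.OA.SD
import Pool.Agent.Lib.MP_42948a_nt.OA.SJ
import Pool.Agent.Lib.MP_42948a_nt.OA.SK
import Pool.Agent.Lib.MP_42948a_nt.OA.SL
import Pool.Agent.Lib.MP_42948a_nt.OA.SM
import Pool.Agent.Lib.MP_d57abb_nt.ER.FF4
import Pool.Agent.Lib.MP_d57abb_nt.ER.Prod4

/-!
# A lower bound sieve of dimension two for a family of predicates

As `MP_42948a_nt/OA/SO.lean`, with densities at most `4 / p` and an arbitrary predicate `P p t` in place of `p ∣ n`.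
-/

namespace Pool.Agent.Lib.MP_d57abb_nt.ER

open Finset Pool.Agent.Lib.MP_42948a_nt.OA

theorem SO4_one (S : Finset ℕ) (P : ℕ → Prop) [DecidablePred P] :
    ∏ p ∈ S, (1 - (if P p then (1 : ℝ) else 0)) = if (∀ p ∈ S, ¬ P p) then (1 : ℝ) else 0 := by
  by_cases h : ∀ p ∈ S, ¬ P p
  · rw [if_pos h]
    refine Finset.prod_eq_one fun p hp => ?_
    rw [if_neg (h p hp), sub_zero]
  · rw [if_neg h]
    push Not at h
    obtain ⟨p, hp, hpn⟩ := h
    refine Finset.prod_eq_zero hp ?_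
    rw [if_pos hpn, sub_self]

theorem SO4_all (T : Finset ℕ) (P : ℕ → Prop) [DecidablePred P] :
    ∏ p ∈ T, (if P p then (1 : ℝ) else 0) = if (∀ p ∈ T, P p) then (1 : ℝ) else 0 := by
  by_cases h : ∀ p ∈ T, P p
  · rw [if_pos h]
    exact Finset.prod_eq_one fun p hp => if_pos (h p hp)
  · rw [if_neg h]
    push Not at h
    obtain ⟨p, hp, hpn⟩ := h
    exact Finset.prod_eq_zero hp (if_neg hpn)

theorem SO4_point (z b0 : ℕ) (P : ℕ → Prop) [DecidablePred P] :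
    ∑ T ∈ (PP z).powerset, lam z b0 T * (if (∀ p ∈ T, P p) then (1 : ℝ) else 0) ≤
      if (∀ p ∈ PP z, ¬ P p) then (1 : ℝ) else 0 := by
  have h := FF_le z b0 (fun p => if P p then (1 : ℝ) else 0)
    (fun p _ => by split_ifs <;> norm_num) (fun p _ => by split_ifs <;> norm_num)
  rw [FF_expand, SO4_one] at h
  simp only [SO4_all] at h
  exact h

theorem sieve4 : ∃ K : ℕ, ∀ z : ℕ, 5 ≤ z → ∀ (A : Finset ℕ) (P : ℕ → ℕ → Prop) [∀ p t, Decidable (P p t)]
    (g : ℕ → ℝ) (X R : ℝ), (∀ p ∈ PP z, 0 ≤ g p ∧ g p ≤ 3 / 4 ∧ g p ≤ 4 / p) → 0 ≤ X → 0 ≤ R →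
    (∀ T ⊆ PP z, ∏ p ∈ T, p ≤ z ^ K →
      |((A.filter (fun t => ∀ p ∈ T, P p t)).card : ℝ) - X * ∏ p ∈ T, g p| ≤ R) →
    X / (2 * (z : ℝ) ^ 4) - (z : ℝ) ^ K * R ≤ ((A.filter (fun t => ∀ p ∈ PP z, ¬ P p t)).card : ℝ) := by
  obtain ⟨b0, hb0⟩ := FF_ge4
  refine ⟨4 * b0 + 6, ?_⟩
  intro z hz A P _ g X R hg hX hR hT
  set W : Finset ℕ → ℝ := fun T => ((A.filter (fun t => ∀ p ∈ T, P p t)).card : ℝ) with hW
  set G : Finset ℕ → ℝ := fun T => ∏ p ∈ T, g p with hG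
  have h1 : ∑ T ∈ (PP z).powerset, lam z b0 T * W T ≤ ((A.filter (fun t => ∀ p ∈ PP z, ¬ P p t)).card : ℝ) := by
    have h3 := Finset.sum_le_sum (fun n (_ : n ∈ A) => SO4_point z b0 (fun p => P p n))
    have h4 : ∑ n ∈ A, (if (∀ p ∈ PP z, ¬ P p n) then (1 : ℝ) else 0) =
        ((A.filter (fun t => ∀ p ∈ PP z, ¬ P p t)).card : ℝ) := by
      rw [← Finset.sum_filter, Finset.sum_const, nsmul_eq_mul, mul_one]
    have h5 : ∑ n ∈ A, ∑ T ∈ (PP z).powerset, lam z b0 T * (if (∀ p ∈ T, P p n) then (1 : ℝ) else 0) =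
        ∑ T ∈ (PP z).powerset, lam z b0 T * W T := by
      rw [Finset.sum_comm]
      refine Finset.sum_congr rfl fun T _ => ?_
      rw [hW]
      simp only
      rw [← Finset.mul_sum, ← Finset.sum_filter, Finset.sum_const, nsmul_eq_mul, mul_one]
    rw [h4, h5] at h3
    exact h3
  have h6 : ∀ T ∈ (PP z).powerset, |lam z b0 T * (W T - X * G T)| ≤
      if ∏ p ∈ T, p ≤ z ^ (4 * b0 + 6) then R else 0 := by
    intro T hTm
    rw [mem_powerset] at hTm
    by_cases h0 : lam z b0 T = 0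
    · rw [h0, zero_mul, abs_zero]
      split_ifs
      · exact hR
      · exact le_rfl
    · have h7 := level z b0 (by omega) T hTm (lam_support z b0 T h0)
      rw [if_pos h7, abs_mul]
      have h8 := hT T hTm h7
      calc |lam z b0 T| * |W T - X * G T| ≤ 1 * R :=
            mul_le_mul (lam_abs_le z b0 T) h8 (abs_nonneg _) zero_le_one
        _ = R := one_mul R
  have h7 : |∑ T ∈ (PP z).powerset, lam z b0 T * (W T - X * G T)| ≤ (z : ℝ) ^ (4 * b0 + 6) * R := by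
    refine (Finset.abs_sum_le_sum_abs _ _).trans ((Finset.sum_le_sum h6).trans ?_)
    rw [← Finset.sum_filter, Finset.sum_const, nsmul_eq_mul]
    refine mul_le_mul_of_nonneg_right ?_ hR
    have h8 := count_sets z (z ^ (4 * b0 + 6))
    exact_mod_cast h8
  have h8 : ∑ T ∈ (PP z).powerset, lam z b0 T * W T =
      ∑ T ∈ (PP z).powerset, lam z b0 T * (W T - X * G T) + X * FF z b0 g := by
    rw [FF_expand, Finset.mul_sum, ← Finset.sum_add_distrib]
    refine Finset.sum_congr rfl fun T _ => ?_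
    simp only [hG]
    ring
  have h9 := hb0 z g hg
  have h10 := prod_ge4 z hz g hg
  have h11 : X / (2 * (z : ℝ) ^ 4) ≤ X * FF z b0 g := by
    have h12 : 1 / (2 * (z : ℝ) ^ 4) ≤ FF z b0 g := by
      have h13 : 1 / (2 * (z : ℝ) ^ 4) = 1 / 2 * (1 / (z : ℝ) ^ 4) := by
        ring
      rw [h13]
      linarith
    calc X / (2 * (z : ℝ) ^ 4) = X * (1 / (2 * (z : ℝ) ^ 4)) := by ring
      _ ≤ X * FF z b0 g := mul_le_mul_of_nonneg_left h12 hX
  have h12 := (abs_le.1 h7).1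
  linarith

end Pool.Agent.Lib.MP_d57abb_nt.ER
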