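import Pool.Agent.Lib.MP_d57abb_nt.ER.Chin
import Pool.Agent.Lib.MP_d57abb_nt.ER.Sieve4

/-!
# The lower bound sieve for residue classes, and the roots of `k ^ 2 + 3 * k + 1` modulo primes
-/

namespace Pool.Agent.Lib.MP_d57abb_nt.ER

open Finset Pool.Agent.Lib.MP_42948a_nt.OA

theorem mem_PP {z p : ℕ} : p ∈ PP z ↔ p.Prime ∧ p ≤ z := by
  unfold PP
  rw [mem_filter, mem_Icc]
  constructor
  · rintro ⟨⟨_, h1⟩, h2⟩
    exact ⟨h2, h1⟩
  · rintro ⟨h1, h2⟩
    exact ⟨⟨h1.one_lt.le, h2⟩, h1⟩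

theorem sieve_res : ∃ K : ℕ, ∀ z : ℕ, 5 ≤ z → ∀ (B : ℕ → Finset ℕ) (T : ℕ),
    (∀ q ∈ PP z, (∀ b ∈ B q, b < q) ∧ (B q).card ≤ 4 ∧ 4 * (B q).card ≤ 3 * q) →
    (T : ℝ) / (2 * (z : ℝ) ^ 4) - (z : ℝ) ^ (2 * K) ≤
      (((range T).filter (fun t => ∀ q ∈ PP z, ¬ t % q ∈ B q)).card : ℝ) := by
  obtain ⟨K, hK⟩ := sieve4
  refine ⟨K, fun z hz B T hB => ?_⟩
  have h := hK z hz (range T) (fun q t => t % q ∈ B q) (fun q => ((B q).card : ℝ) / q) T ((z : ℝ) ^ K)
    ?_ (Nat.cast_nonneg _) (by positivity) ?_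
  · rw [two_mul K, pow_add]
    exact h
  · intro q hq
    have hq0 : (0 : ℝ) < q := by exact_mod_cast (mem_PP.1 hq).1.pos
    obtain ⟨h1, h2, h3⟩ := hB q hq
    refine ⟨by positivity, ?_, ?_⟩
    · rw [div_le_div_iff₀ hq0 (by norm_num)]
      have h4 : ((4 * (B q).card : ℕ) : ℝ) ≤ ((3 * q : ℕ) : ℝ) := by exact_mod_cast h3
      push_cast at h4
      linarith
    · refine div_le_div_of_nonneg_right ?_ hq0.le
      exact_mod_cast h2
  · intro S hS hSz
    refine (crt_count B S (fun q hq => (mem_PP.1 (hS hq)).1) (fun q hq => (hB q (hS hq)).1) T).trans ?_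
    have h4 : ((∏ q ∈ S, q : ℕ) : ℝ) ≤ ((z ^ K : ℕ) : ℝ) := by exact_mod_cast hSz
    push_cast at h4
    exact h4

/-- At most two roots modulo a prime. -/
theorem roots_two {p : ℕ} [Fact p.Prime] (s : Finset (ZMod p)) (hs : ∀ u ∈ s, u ^ 2 + 3 * u + 1 = 0) :
    s.card ≤ 2 := by
  classical
  rcases s.eq_empty_or_nonempty with h | ⟨a, ha⟩
  · rw [h]
    simp
  · have h1 : s ⊆ {a, -3 - a} := by
      intro u hu
      have h2 := hs u hu
      have h3 := hs a ha
      have h4 : (u - a) * (u - (-3 - a)) = 0 := by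
        linear_combination h2 - h3
      rw [mem_insert, mem_singleton]
      rcases mul_eq_zero.1 h4 with h5 | h5
      · left
        exact sub_eq_zero.1 h5
      · right
        exact sub_eq_zero.1 h5
    exact (card_le_card h1).trans (Finset.card_le_two)

/-- The number of `r < q` such that `c * r + e` is a root of `u ^ 2 + 3 * u + 1` modulo `q`. -/
theorem roots_lin {p : ℕ} (hp : p.Prime) (c e : ℕ) (hc : ¬ p ∣ c) :
    ((range p).filter (fun r => p ∣ (c * r + e) ^ 2 + 3 * (c * r + e) + 1)).card ≤ 2 := by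
  classical
  have : Fact p.Prime := ⟨hp⟩
  have hc' : (c : ZMod p) ≠ 0 := by
    rw [Ne, ZMod.natCast_eq_zero_iff]
    exact hc
  have h1 : ((range p).filter (fun r => p ∣ (c * r + e) ^ 2 + 3 * (c * r + e) + 1)).card =
      (((range p).filter (fun r => p ∣ (c * r + e) ^ 2 + 3 * (c * r + e) + 1)).image
        (fun r : ℕ => ((c * r + e : ℕ) : ZMod p))).card := by
    rw [card_image_of_injOn]
    intro r hr r' hr' hrr
    rw [mem_coe, mem_filter, mem_range] at hr hr'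
    simp only at hrr
    push_cast at hrr
    have h2 : (c : ZMod p) * r = c * r' := add_right_cancel hrr
    have h3 : (r : ZMod p) = r' := mul_left_cancel₀ hc' h2
    rw [ZMod.natCast_eq_natCast_iff] at h3
    exact Nat.ModEq.eq_of_lt_of_lt h3 hr.1 hr'.1
  rw [h1]
  refine roots_two _ ?_
  intro u hu
  rw [mem_image] at hu
  obtain ⟨r, hr, rfl⟩ := hu
  rw [mem_filter] at hr
  have h2 := (ZMod.natCast_eq_zero_iff _ _).2 hr.2
  push_cast at h2 ⊢
  exact h2

/-- No roots modulo `2`, `3` and `7`, one root modulo `5`. -/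
theorem no_root_two (u : ℕ) : ¬ 2 ∣ u ^ 2 + 3 * u + 1 := by
  intro h
  have h1 := (ZMod.natCast_eq_zero_iff _ _).2 h
  push_cast at h1
  generalize (u : ZMod 2) = v at h1
  revert h1
  revert v
  decide

theorem no_root_three (u : ℕ) : ¬ 3 ∣ u ^ 2 + 3 * u + 1 := by
  intro h
  have h1 := (ZMod.natCast_eq_zero_iff _ _).2 h
  push_cast at h1
  generalize (u : ZMod 3) = v at h1
  revert h1
  revert v
  decide

theorem root_five {u : ℕ} (h : 5 ∣ u ^ 2 + 3 * u + 1) : u % 5 = 1 := by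
  have h1 := (ZMod.natCast_eq_zero_iff _ _).2 h
  push_cast at h1
  have h2 : (u : ZMod 5) = ((1 : ℕ) : ZMod 5) := by
    push_cast
    generalize (u : ZMod 5) = v at h1
    revert h1
    revert v
    decide
  rw [ZMod.natCast_eq_natCast_iff] at h2
  exact h2

end Pool.Agent.Lib.MP_d57abb_nt.ER
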