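import Pool.Agent.Lib.MP_d57abb_nt.ER.Res

/-!
# The triangle relation and the divisor bound for rough numbers
-/

namespace Pool.Agent.Lib.MP_d57abb_nt.ER

open Finset Pool.Agent.Lib.MP_42948a_nt.OA

/-- the polynomial -/
def ff (u : ℕ) : ℕ := u ^ 2 + 3 * u + 1

theorem tri_one {a d e : ℕ} (h : ff a = d * e) : ff (a + d) = d * (e + 2 * a + d + 3) := by
  unfold ff at *
  nlinarith [h]

theorem tri_two {a d e : ℕ} (h : ff a = d * e) : ff (a + e) = e * (e + 2 * a + d + 3) := by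
  unfold ff at *
  nlinarith [h]

/-- no prime factor `≤ z` -/
def NF (z n : ℕ) : Prop := ∀ q ∈ PP z, ¬ q ∣ n

theorem NF.of_dvd {z m n : ℕ} (hn : NF z n) (h : m ∣ n) : NF z m :=
  fun q hq hqm => hn q hq (hqm.trans h)

theorem NF.mul {z m n : ℕ} (hm : NF z m) (hn : NF z n) : NF z (m * n) := by
  intro q hq h
  rcases ((mem_PP.1 hq).1.dvd_mul).1 h with h | h
  · exact hm q hq h
  · exact hn q hq h

theorem tri_choice (g : ℕ → ℤ) (hmul : ∀ m n : ℕ, g (m * n) = g m * g n)
    (hval : ∀ n : ℕ, 0 < n → g n = 1 ∨ g n = -1) {z a d e : ℕ} (h : ff a = d * e)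
    (h1 : NF z (ff a)) (h2 : NF z (ff (a + d))) :
    ∃ k : ℕ, (k = a ∨ k = a + d ∨ k = a + e) ∧ NF z (ff k) ∧ g (ff k) = 1 := by
  have t1 := tri_one h
  have t2 := tri_two h
  set n : ℕ := e + 2 * a + d + 3 with hn
  have hpos : ∀ u, 0 < ff u := fun u => by unfold ff; omega
  have hd : 0 < d := by
    rcases Nat.eq_zero_or_pos d with h0 | h0
    · have := hpos a
      rw [h, h0, zero_mul] at this
      omega
    · exact h0
  have he : 0 < e := by
    rcases Nat.eq_zero_or_pos e with h0 | h0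
    · have := hpos a
      rw [h, h0, mul_zero] at this
      omega
    · exact h0
  have h3 : NF z (ff (a + e)) := by
    rw [t2]
    refine NF.mul (h1.of_dvd ?_) (h2.of_dvd ?_)
    · rw [h]
      exact Dvd.intro_left d rfl
    · rw [t1]
      exact Dvd.intro_left d rfl
  have gd := hval d hd
  have ge := hval e he
  have gn := hval n (by omega)
  have e1 : g (ff a) = g d * g e := by rw [h, hmul]
  have e2 : g (ff (a + d)) = g d * g n := by rw [t1, hmul]
  have e3 : g (ff (a + e)) = g e * g n := by rw [t2, hmul]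
  rcases gd with gd | gd <;> rcases ge with ge | ge <;> rcases gn with gn | gn <;>
    rw [gd, ge] at e1 <;> rw [gd, gn] at e2 <;> rw [ge, gn] at e3
  · exact ⟨a, Or.inl rfl, h1, by rw [e1]; norm_num⟩
  · exact ⟨a, Or.inl rfl, h1, by rw [e1]; norm_num⟩
  · exact ⟨a + d, Or.inr (Or.inl rfl), h2, by rw [e2]; norm_num⟩
  · exact ⟨a + e, Or.inr (Or.inr rfl), h3, by rw [e3]; norm_num⟩
  · exact ⟨a + e, Or.inr (Or.inr rfl), h3, by rw [e3]; norm_num⟩
  · exact ⟨a + d, Or.inr (Or.inl rfl), h2, by rw [e2]; norm_num⟩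
  · exact ⟨a, Or.inl rfl, h1, by rw [e1]; norm_num⟩
  · exact ⟨a, Or.inl rfl, h1, by rw [e1]; norm_num⟩

theorem succ_le_two_pow (a : ℕ) : a + 1 ≤ 2 ^ a := Nat.lt_two_pow_self

theorem card_div_le {z n m : ℕ} (hn : 0 < n) (hz : 2 ≤ z) (h : NF z n) (hnm : n < z ^ m) :
    n.divisors.card ≤ 2 ^ m := by
  have h1 : n.divisors.card ≤ 2 ^ (∑ p ∈ n.primeFactors, n.factorization p) := by
    rw [Nat.card_divisors hn.ne', ← Finset.prod_pow_eq_pow_sum]
    exact Finset.prod_le_prod' fun p _ => succ_le_two_pow _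
  have h2 : z ^ (∑ p ∈ n.primeFactors, n.factorization p) ≤ n := by
    conv_rhs => rw [← Nat.prod_factorization_pow_eq_self hn.ne']
    rw [← Finset.prod_pow_eq_pow_sum, Finsupp.prod, Nat.support_factorization]
    refine Finset.prod_le_prod' fun p hp => ?_
    refine Nat.pow_le_pow_left ?_ _
    by_contra hlt
    push Not at hlt
    exact h p (mem_PP.2 ⟨Nat.prime_of_mem_primeFactors hp, hlt.le⟩) (Nat.dvd_of_mem_primeFactors hp)
  have h3 : (∑ p ∈ n.primeFactors, n.factorization p) < m :=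
    (Nat.pow_lt_pow_iff_right (by omega)).1 (h2.trans_lt hnm)
  exact h1.trans (Nat.pow_le_pow_right (by norm_num) h3.le)

end Pool.Agent.Lib.MP_d57abb_nt.ER
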